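import Pool.Agent.Helper5.Core2.Defs

/-!
# MP_fafe86_al, part O1: basics
-/

set_option autoImplicit false

namespace Pool.Agent.Helper4.Core2

open Subgroup Pool.Agent.Helper5.Core2

section Groups

variable {G : Type*} [Group G]

/-- A nontrivial normal subgroup of a finite `2`-group contains a nontrivial central element. -/
theorem exists_central_mem [Finite G] (h2 : IsPGroup 2 G) (N : Subgroup G) (hN : N.Normal)
    (hN1 : N ≠ ⊥) : ∃ c ∈ N, c ≠ 1 ∧ c ∈ center G := by
  have : Fact (Nat.Prime 2) := ⟨Nat.prime_two⟩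
  have hC : IsPGroup 2 (ConjAct G) := h2.of_equiv ConjAct.toConjAct
  have hcard : 2 ∣ Nat.card N := by
    have hN2 : IsPGroup 2 N := h2.to_subgroup N
    obtain ⟨k, hk⟩ := IsPGroup.iff_card.mp hN2
    rcases Nat.eq_zero_or_pos k with rfl | hk0
    · exfalso
      apply hN1
      rw [← Subgroup.card_eq_one]
      simpa using hk
    · rw [hk]
      exact dvd_pow_self 2 (by omega)
  obtain ⟨b, hb, hb1⟩ := hC.exists_fixed_point_of_prime_dvd_card_of_fixed_point (↥N) hcard
    (a := (1 : N)) (by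
      intro g
      simp)
  refine ⟨b, b.2, ?_, ?_⟩
  · intro h
    exact hb1 (Subtype.ext h.symm)
  · rw [mem_center_iff]
    intro g
    have h3 := congrArg Subtype.val (hb (ConjAct.toConjAct g))
    rw [ConjAct.Subgroup.val_conj_smul, ConjAct.smul_def, ConjAct.ofConjAct_toConjAct] at h3
    exact mul_inv_eq_iff_eq_mul.mp h3

/-- Two of `a, b, ab` outside a subgroup of index at most two is impossible. -/
theorem mem_or_mem_or_mul_mem {A : Type*} [Group A] (K : Subgroup A) (h1 : K.index ≤ 2)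
    (h0 : K.index ≠ 0) (a b : A) : a ∈ K ∨ b ∈ K ∨ a * b ∈ K := by
  rcases (show K.index = 1 ∨ K.index = 2 by omega) with h | h
  · rw [Subgroup.index_eq_one] at h
    left
    rw [h]
    trivial
  · by_cases ha : a ∈ K
    · exact Or.inl ha
    · by_cases hb : b ∈ K
      · exact Or.inr (Or.inl hb)
      · right; right
        rw [Subgroup.mul_mem_iff_of_index_two h]
        simp [ha, hb]

theorem sq_mem_of_index_le_two {A : Type*} [Group A] (K : Subgroup A) (h1 : K.index ≤ 2)
    (h0 : K.index ≠ 0) (a : A) : a ^ 2 ∈ K := by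
  rcases mem_or_mem_or_mul_mem K h1 h0 a a with h | h | h
  · exact pow_mem h 2
  · exact pow_mem h 2
  · rw [pow_two]; exact h

theorem isC_F1 [Finite G] (hcore : ∀ H : Subgroup G, (H.normalCore.subgroupOf H).index ≤ 2)
    (x g : G) : g * x ^ 2 * g⁻¹ ∈ zpowers (x ^ 2) := by
  set N := (zpowers x).normalCore with hN
  have hNN : N.Normal := Subgroup.normalCore_normal _
  have hNle : N ≤ zpowers x := Subgroup.normalCore_le _
  have hx2 : x ^ 2 ∈ N := by
    have h := sq_mem_of_index_le_two (N.subgroupOf (zpowers x)) (hcore (zpowers x))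
      Subgroup.index_ne_zero_of_finite ⟨x, mem_zpowers x⟩
    rw [Subgroup.mem_subgroupOf] at h
    simpa using h
  by_cases hx : x ∈ N
  · have h1 : g * x * g⁻¹ ∈ zpowers x := hNle (hNN.conj_mem x hx g)
    obtain ⟨k, hk⟩ := mem_zpowers_iff.mp h1
    rw [mem_zpowers_iff]
    refine ⟨k, ?_⟩
    rw [← conj_pow, ← hk]
    rw [← zpow_natCast x 2, ← zpow_natCast (x ^ k) 2, ← zpow_mul, ← zpow_mul, mul_comm]
  · have h1 : g * x ^ 2 * g⁻¹ ∈ N := hNN.conj_mem _ hx2 g
    obtain ⟨k, hk⟩ := mem_zpowers_iff.mp (hNle h1)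
    rcases Int.even_or_odd' k with ⟨j, hj | hj⟩
    · rw [mem_zpowers_iff]
      refine ⟨j, ?_⟩
      rw [← hk, hj, zpow_mul]
      norm_cast
    · exfalso
      apply hx
      have h2 : x ^ k ∈ N := hk ▸ h1
      have h3 : x = x ^ k * (x ^ 2) ^ (-j) := by
        rw [hj, ← zpow_natCast x 2, ← zpow_mul, ← zpow_add]
        have : (2 * j + 1 + ((2 : ℕ) : ℤ) * -j) = 1 := by push_cast; ring
        rw [this, zpow_one]
      rw [h3]
      exact mul_mem h2 (zpow_mem hx2 _)

theorem zpowers_sq_normal (hF1 : ∀ x g : G, g * x ^ 2 * g⁻¹ ∈ zpowers (x ^ 2)) (x : G) :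
    (zpowers (x ^ 2)).Normal := by
  constructor
  intro n hn g
  obtain ⟨k, rfl⟩ := mem_zpowers_iff.mp hn
  rw [← conj_zpow]
  exact zpow_mem (hF1 x g) k

theorem PP_normal (hF1 : ∀ x g : G, g * x ^ 2 * g⁻¹ ∈ zpowers (x ^ 2)) (x y : G) :
    (PP x y).Normal := by
  have h1 := zpowers_sq_normal hF1 x
  have h2 := zpowers_sq_normal hF1 y
  have h3 := zpowers_sq_normal hF1 (x * y)
  unfold PP
  infer_instance

/-- In a group, if `a² = b² = (ab)² = 1` then `{1, a, b, ab}` contains `closure {a, b}`. -/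
theorem mem_four {Q : Type*} [Group Q] {a b : Q} (ha : a ^ 2 = 1) (hb : b ^ 2 = 1)
    (hab : (a * b) ^ 2 = 1) {c : Q} (hc : c ∈ closure ({a, b} : Set Q)) :
    c = 1 ∨ c = a ∨ c = b ∨ c = a * b := by
  have ha' : a * a = 1 := by rw [← pow_two]; exact ha
  have hb' : b * b = 1 := by rw [← pow_two]; exact hb
  have hai : a⁻¹ = a := inv_eq_of_mul_eq_one_left ha'
  have hbi : b⁻¹ = b := inv_eq_of_mul_eq_one_left hb'
  have hcomm : b * a = a * b := by
    have h1 : (a * b) * (a * b) = 1 := by rw [← pow_two]; exact hab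
    have h2 : (a * b)⁻¹ = a * b := inv_eq_of_mul_eq_one_left h1
    rw [mul_inv_rev, hai, hbi] at h2
    exact h2
  let S : Subgroup Q :=
    { carrier := {c | c = 1 ∨ c = a ∨ c = b ∨ c = a * b}
      one_mem' := Or.inl rfl
      mul_mem' := by
        rintro u v hu hv
        have e1 : a * (a * b) = b := by rw [← mul_assoc, ha', one_mul]
        have e2 : b * (a * b) = a := by rw [← hcomm, ← mul_assoc, hb', one_mul]
        have e3 : a * b * a = b := by rw [mul_assoc, hcomm, e1]
        have e4 : a * b * b = a := by rw [mul_assoc, hb', mul_one]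
        have e5 : a * b * (a * b) = 1 := by rw [← pow_two]; exact hab
        rcases hu with rfl | rfl | rfl | rfl <;> rcases hv with rfl | rfl | rfl | rfl <;>
          simp_all
      inv_mem' := by
        rintro u hu
        have e1 : (a * b)⁻¹ = a * b := by rw [mul_inv_rev, hai, hbi, hcomm]
        rcases hu with rfl | rfl | rfl | rfl <;> simp_all }
  have hS : closure ({a, b} : Set Q) ≤ S := by
    rw [closure_le]
    rintro u (rfl | rfl)
    · exact Or.inr (Or.inl rfl)
    · exact Or.inr (Or.inr (Or.inl rfl))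
  exact hS hc

theorem PP_le (x y : G) : PP x y ≤ closure ({x, y} : Set G) := by
  have hx : x ∈ closure ({x, y} : Set G) := subset_closure (Or.inl rfl)
  have hy : y ∈ closure ({x, y} : Set G) := subset_closure (Or.inr rfl)
  unfold PP
  refine sup_le (sup_le ?_ ?_) ?_ <;> rw [zpowers_le]
  · exact pow_mem hx 2
  · exact pow_mem hy 2
  · exact pow_mem (mul_mem hx hy) 2

theorem sq_mem_PP_left (x y : G) : x ^ 2 ∈ PP x y :=
  Subgroup.mem_sup_left (Subgroup.mem_sup_left (mem_zpowers _))

theorem sq_mem_PP_right (x y : G) : y ^ 2 ∈ PP x y :=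
  Subgroup.mem_sup_left (Subgroup.mem_sup_right (mem_zpowers _))

theorem sq_mem_PP_mul (x y : G) : (x * y) ^ 2 ∈ PP x y :=
  Subgroup.mem_sup_right (mem_zpowers _)

theorem isC_of_core [Finite G] (h2 : IsPGroup 2 G)
    (hcore : ∀ H : Subgroup G, (H.normalCore.subgroupOf H).index ≤ 2) : IsC G := by
  have hF1 := isC_F1 hcore
  refine ⟨h2, hF1, ?_⟩
  intro x y
  have hP : (PP x y).Normal := PP_normal hF1 x y
  set H := closure ({x, y} : Set G) with hH
  set N := H.normalCore with hN
  have hNN : N.Normal := Subgroup.normalCore_normal _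
  have hNH : N ≤ H := Subgroup.normalCore_le _
  have hxH : x ∈ H := subset_closure (Or.inl rfl)
  have hyH : y ∈ H := subset_closure (Or.inr rfl)
  by_cases hNP : N ≤ PP x y
  · -- one of `x, y, xy` is in `N`
    have h3 := mem_or_mem_or_mul_mem (N.subgroupOf H) (hcore H) Subgroup.index_ne_zero_of_finite
      ⟨x, hxH⟩ ⟨y, hyH⟩
    rw [Subgroup.mem_subgroupOf, Subgroup.mem_subgroupOf, Subgroup.mem_subgroupOf] at h3
    have key : ∀ k ∈ N, ∀ g : G, k * g * k⁻¹ * g⁻¹ ∈ PP x y := by
      intro k hk g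
      have h4 : k * g * k⁻¹ * g⁻¹ = k * (g * k⁻¹ * g⁻¹) := by group
      rw [h4]
      exact mul_mem (hNP hk) (hP.conj_mem _ (inv_mem (hNP hk)) g)
    rcases h3 with h | h | h
    · exact Or.inl (key x h)
    · exact Or.inr (Or.inl (key y h))
    · exact Or.inr (Or.inr (key (x * y) h))
  · -- a nontrivial central element in the image of `N` modulo `PP`
    set M := N.map (QuotientGroup.mk' (PP x y)) with hM
    have hMn : M.Normal := hNN.map _ (QuotientGroup.mk'_surjective _)
    have hM1 : M ≠ ⊥ := by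
      intro h
      apply hNP
      rw [hM, Subgroup.map_eq_bot_iff, QuotientGroup.ker_mk'] at h
      exact h
    obtain ⟨c, hcM, hc1, hcc⟩ := exists_central_mem (h2.to_quotient (PP x y)) M hMn hM1
    obtain ⟨n, hn, rfl⟩ := Subgroup.mem_map.mp hcM
    have hnH : n ∈ H := hNH hn
    have hmem : QuotientGroup.mk' (PP x y) n ∈ closure
        ({QuotientGroup.mk' (PP x y) x, QuotientGroup.mk' (PP x y) y} : Set (G ⧸ PP x y)) := by
      have h5 : QuotientGroup.mk' (PP x y) n ∈ H.map (QuotientGroup.mk' (PP x y)) :=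
        Subgroup.mem_map_of_mem _ hnH
      rw [hH, MonoidHom.map_closure, Set.image_pair] at h5
      exact h5
    have hq : ∀ u : G, u ∈ PP x y → QuotientGroup.mk' (PP x y) u = 1 := by
      intro u hu
      exact (QuotientGroup.eq_one_iff u).mpr hu
    have key : ∀ k : G, QuotientGroup.mk' (PP x y) k ∈ center (G ⧸ PP x y) →
        ∀ g : G, k * g * k⁻¹ * g⁻¹ ∈ PP x y := by
      intro k hk g
      rw [mem_center_iff] at hk
      have h6 := hk (QuotientGroup.mk' (PP x y) g)
      rw [← QuotientGroup.eq_one_iff]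
      change QuotientGroup.mk' (PP x y) (k * g * k⁻¹ * g⁻¹) = 1
      rw [map_mul, map_mul, map_mul, ← h6, map_inv, map_inv]
      group
    have h7 := mem_four (a := QuotientGroup.mk' (PP x y) x) (b := QuotientGroup.mk' (PP x y) y)
      (by rw [← map_pow]; exact hq _ (sq_mem_PP_left x y))
      (by rw [← map_pow]; exact hq _ (sq_mem_PP_right x y))
      (by rw [← map_mul, ← map_pow]; exact hq _ (sq_mem_PP_mul x y)) hmem
    rcases h7 with h | h | h | h
    · exact absurd h hc1
    · exact Or.inl (key x (h ▸ hcc))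
    · exact Or.inr (Or.inl (key y (h ▸ hcc)))
    · refine Or.inr (Or.inr (key (x * y) ?_))
      rw [map_mul]
      exact h ▸ hcc

theorem map_PP {G' : Type*} [Group G'] (f : G →* G') (x y : G) :
    (PP x y).map f = PP (f x) (f y) := by
  unfold PP
  rw [Subgroup.map_sup, Subgroup.map_sup, MonoidHom.map_zpowers, MonoidHom.map_zpowers,
    MonoidHom.map_zpowers, map_pow, map_pow, map_pow, map_mul]

theorem IsC.toSubgroup (h : IsC G) (H : Subgroup G) : IsC H := by
  have hmem : ∀ (K : Subgroup H) (u : H), u ∈ K ↔ (u : G) ∈ K.map H.subtype := by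
    intro K u
    rw [← Subgroup.mem_map_iff_mem H.subtype_injective]
    rfl
  refine ⟨h.two.to_subgroup H, ?_, ?_⟩
  · intro x g
    rw [hmem, MonoidHom.map_zpowers]
    exact h.F1 (x : G) (g : G)
  · intro x y
    rcases h.star (x : G) (y : G) with h1 | h1 | h1
    · left
      intro g
      rw [hmem, map_PP]
      exact h1 g
    · right; left
      intro g
      rw [hmem, map_PP]
      exact h1 g
    · right; right
      intro g
      rw [hmem, map_PP]
      exact h1 g

theorem IsC.toQuotient (h : IsC G) (N : Subgroup G) [N.Normal] : IsC (G ⧸ N) := by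
  refine ⟨h.two.to_quotient N, ?_, ?_⟩
  · intro x g
    obtain ⟨x, rfl⟩ := QuotientGroup.mk'_surjective N x
    obtain ⟨g, rfl⟩ := QuotientGroup.mk'_surjective N g
    have h1 := Subgroup.mem_map_of_mem (QuotientGroup.mk' N) (h.F1 x g)
    rw [MonoidHom.map_zpowers] at h1
    simpa using h1
  · intro x y
    obtain ⟨x, rfl⟩ := QuotientGroup.mk'_surjective N x
    obtain ⟨y, rfl⟩ := QuotientGroup.mk'_surjective N y
    rw [← map_PP]
    rcases h.star x y with h1 | h1 | h1
    · left
      intro g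
      obtain ⟨g, rfl⟩ := QuotientGroup.mk'_surjective N g
      simpa using Subgroup.mem_map_of_mem (QuotientGroup.mk' N) (h1 g)
    · right; left
      intro g
      obtain ⟨g, rfl⟩ := QuotientGroup.mk'_surjective N g
      simpa using Subgroup.mem_map_of_mem (QuotientGroup.mk' N) (h1 g)
    · right; right
      intro g
      obtain ⟨g, rfl⟩ := QuotientGroup.mk'_surjective N g
      simpa using Subgroup.mem_map_of_mem (QuotientGroup.mk' N) (h1 g)

theorem exists_index_four [Finite G] (h2 : IsPGroup 2 G) (hcard : 2 < Nat.card G) (hT : TT G) :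
    ∃ A : Subgroup G, (∀ x ∈ A, ∀ y ∈ A, x * y = y * x) ∧ A.index = 4 := by
  have : Fact (Nat.Prime 2) := ⟨Nat.prime_two⟩
  obtain ⟨A, -, hcomm, hidx⟩ := hT
  obtain ⟨n, hn⟩ := IsPGroup.iff_card.mp h2
  have hn2 : 2 ≤ n := by
    by_contra hlt
    have : n ≤ 1 := by omega
    have : 2 ^ n ≤ 2 ^ 1 := Nat.pow_le_pow_right (by norm_num) this
    omega
  have hmul := A.card_mul_index
  have hdiv : 2 ^ (n - 2) ∣ Nat.card A := by
    obtain ⟨k, hk⟩ := IsPGroup.iff_card.mp (h2.to_subgroup A)
    rw [hk]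
    apply Nat.pow_dvd_pow
    by_contra hlt
    have h3 : k + 1 ≤ n - 2 := by omega
    have h4 : 2 ^ (k + 1) ≤ 2 ^ (n - 2) := Nat.pow_le_pow_right (by norm_num) h3
    have h5 : 2 ^ n = 2 ^ (n - 2) * 4 := by
      rw [show (4 : ℕ) = 2 ^ 2 by norm_num, ← pow_add]
      congr 1
      omega
    rw [hk, hn, h5] at hmul
    have h6 : 2 ^ k * A.index ≤ 2 ^ k * 4 := Nat.mul_le_mul_left _ hidx
    rw [pow_succ] at h4
    have h7 : 0 < 2 ^ k := by positivity
    omega
  obtain ⟨K, hK⟩ := Sylow.exists_subgroup_card_pow_prime (G := A) 2 hdiv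
  refine ⟨K.map A.subtype, ?_, ?_⟩
  · intro x hx y hy
    obtain ⟨x', -, rfl⟩ := Subgroup.mem_map.mp hx
    obtain ⟨y', -, rfl⟩ := Subgroup.mem_map.mp hy
    exact hcomm _ x'.2 _ y'.2
  · have h8 := (K.map A.subtype).card_mul_index
    have h9 : Nat.card (K.map A.subtype) = 2 ^ (n - 2) := by
      rw [Subgroup.card_map_of_injective A.subtype_injective, hK]
    rw [h9, hn] at h8
    have h5 : 2 ^ n = 2 ^ (n - 2) * 4 := by
      rw [show (4 : ℕ) = 2 ^ 2 by norm_num, ← pow_add]
      congr 1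
      omega
    rw [h5] at h8
    exact Nat.eq_of_mul_eq_mul_left (by positivity) h8

theorem exists_mono [Finite G] (K : Subgroup G) (hK : K.Normal) {z : G} (hz : z ∉ K) :
    ∃ N : Subgroup G, ∃ _ : N.Normal, K ≤ N ∧ z ∉ N ∧ Mono (QuotientGroup.mk z : G ⧸ N) := by
  obtain ⟨N, hN⟩ := (Set.toFinite {N : Subgroup G | N.Normal ∧ K ≤ N ∧ z ∉ N}).exists_maximal
    ⟨K, hK, le_rfl, hz⟩
  obtain ⟨⟨hNn, hKN, hzN⟩, hmax⟩ := hN
  refine ⟨N, hNn, hKN, hzN, ?_, ?_⟩
  · intro h
    exact hzN ((QuotientGroup.eq_one_iff z).mp h)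
  · intro M hMn hM1
    by_contra hzM
    have h1 : (M.comap (QuotientGroup.mk' N)).Normal := hMn.comap _
    have h2 : N ≤ M.comap (QuotientGroup.mk' N) := by
      intro n hn
      rw [Subgroup.mem_comap]
      have : QuotientGroup.mk' N n = 1 := (QuotientGroup.eq_one_iff n).mpr hn
      rw [this]
      exact one_mem _
    have h3 : M.comap (QuotientGroup.mk' N) ≤ N := by
      refine hmax ⟨h1, hKN.trans h2, ?_⟩ h2
      intro hz'
      exact hzM hz'
    apply hM1
    rw [Subgroup.eq_bot_iff_forall]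
    intro m hm
    obtain ⟨g, rfl⟩ := QuotientGroup.mk'_surjective N m
    exact (QuotientGroup.eq_one_iff g).mpr (h3 hm)

end Groups

end Pool.Agent.Helper4.Core2
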